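import Mathlib

set_option autoImplicit false

namespace Pool.Agent.Results.MP_35dbbb_co.LowerBoundFails

/-- A colouring `c` of the vertices of `G` is nonrepetitive if no path with an even number
`2 * t ≥ 2` of vertices is coloured as a square. -/
def IsNonrepetitive {V C : Type*} (G : SimpleGraph V) (c : V → C) : Prop :=
  ∀ t : ℕ, 1 ≤ t → ∀ (u v : V) (p : G.Walk u v), p.IsPath → p.support.length = 2 * t →
    (p.support.map c).take t ≠ (p.support.map c).drop t

/-- The Thue chromatic number: the least number of colours in a nonrepetitive colouring. -/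
noncomputable def thue {V : Type*} (G : SimpleGraph V) : ℕ :=
  sInf {n : ℕ | ∃ c : V → Fin n, IsNonrepetitive G c}

/-- The lexicographic product `G[H]`. -/
def lexProd {V W : Type*} (G : SimpleGraph V) (H : SimpleGraph W) : SimpleGraph (V × W) where
  Adj x y := G.Adj x.1 y.1 ∨ (x.1 = y.1 ∧ H.Adj x.2 y.2)
  symm := ⟨fun _ _ h => h.elim (fun h => Or.inl h.symm) (fun h => Or.inr ⟨h.1.symm, h.2.symm⟩)⟩
  loopless := ⟨fun _ h => h.elim (fun h => G.loopless.irrefl _ h)
    (fun h => H.loopless.irrefl _ h.2)⟩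

section basics

variable {V C : Type*} {G : SimpleGraph V}

/-- The square-free condition in terms of lists of vertices. -/
theorem not_square_of_list {c : V → C} (h : IsNonrepetitive G c) (l : List V)
    (hnd : l.Nodup) (hch : l.IsChain G.Adj) (t : ℕ) (ht : 1 ≤ t) (hl : l.length = 2 * t) :
    (l.map c).take t ≠ (l.map c).drop t := by
  have hne : l ≠ [] := by
    rintro rfl
    simp at hl
    omega
  have h1 := h t ht _ _ (SimpleGraph.Walk.ofSupport l hne hch)
    (by rw [SimpleGraph.Walk.isPath_def, SimpleGraph.Walk.support_ofSupport]; exact hnd)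
    (by rw [SimpleGraph.Walk.support_ofSupport]; exact hl)
  rwa [SimpleGraph.Walk.support_ofSupport] at h1

theorem nonrep_comp_injective {D : Type*} {c : V → C} (h : IsNonrepetitive G c) (f : C → D)
    (hf : Function.Injective f) : IsNonrepetitive G (fun v => f (c v)) := by
  intro t ht u v p hp hlen heq
  apply h t ht u v p hp hlen
  have h1 : (p.support.map (fun v => f (c v))) = (p.support.map c).map f := by
    rw [List.map_map]; rfl
  rw [h1, ← List.map_take, ← List.map_drop] at heq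
  exact List.map_injective_iff.2 hf heq

end basics

/-! ### The cycle of length 7 needs four colours -/

set_option synthInstance.maxSize 10000 in
theorem cycle_pattern : ∀ a0 a1 a2 a3 a4 a5 a6 : Fin 3,
    (a0 = a1 ∨ a1 = a2 ∨ a2 = a3 ∨ a3 = a4 ∨ a4 = a5 ∨ a5 = a6 ∨ a6 = a0) ∨
    ((a0 = a2 ∧ a1 = a3) ∨ (a1 = a3 ∧ a2 = a4) ∨ (a2 = a4 ∧ a3 = a5) ∨ (a3 = a5 ∧ a4 = a6) ∨
      (a4 = a6 ∧ a5 = a0) ∨ (a5 = a0 ∧ a6 = a1) ∨ (a6 = a1 ∧ a0 = a2)) ∨
    ((a0 = a3 ∧ a1 = a4 ∧ a2 = a5) ∨ (a1 = a4 ∧ a2 = a5 ∧ a3 = a6) ∨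
      (a2 = a5 ∧ a3 = a6 ∧ a4 = a0) ∨ (a3 = a6 ∧ a4 = a0 ∧ a5 = a1) ∨
      (a4 = a0 ∧ a5 = a1 ∧ a6 = a2) ∨ (a5 = a1 ∧ a6 = a2 ∧ a0 = a3) ∨
      (a6 = a2 ∧ a0 = a3 ∧ a1 = a4)) := by
  decide +kernel

theorem cycle_not_three (c : Fin 7 → Fin 3) : ¬ IsNonrepetitive (SimpleGraph.cycleGraph 7) c := by
  intro h
  have h1 : ∀ a b : Fin 7, (SimpleGraph.cycleGraph 7).Adj a b → c a ≠ c b := by
    intro a b hab hc
    refine not_square_of_list h [a, b] ?_ ?_ 1 le_rfl rfl ?_
    · simpa using hab.ne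
    · simpa using hab
    · simp [hc]
  have h2 : ∀ a b a' b' : Fin 7, [a, b, a', b'].Nodup →
      [a, b, a', b'].IsChain (SimpleGraph.cycleGraph 7).Adj → ¬ (c a = c a' ∧ c b = c b') := by
    rintro a b a' b' hnd hch ⟨e1, e2⟩
    refine not_square_of_list h _ hnd hch 2 (by norm_num) rfl ?_
    simp [e1, e2]
  have h3 : ∀ a b d a' b' d' : Fin 7, [a, b, d, a', b', d'].Nodup →
      [a, b, d, a', b', d'].IsChain (SimpleGraph.cycleGraph 7).Adj →
      ¬ (c a = c a' ∧ c b = c b' ∧ c d = c d') := by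
    rintro a b d a' b' d' hnd hch ⟨e1, e2, e3⟩
    refine not_square_of_list h _ hnd hch 3 (by norm_num) rfl ?_
    simp [e1, e2, e3]
  rcases cycle_pattern (c 0) (c 1) (c 2) (c 3) (c 4) (c 5) (c 6) with
    (e | e | e | e | e | e | e) | (e | e | e | e | e | e | e) | (e | e | e | e | e | e | e)
  · exact h1 0 1 (by decide) e
  · exact h1 1 2 (by decide) e
  · exact h1 2 3 (by decide) e
  · exact h1 3 4 (by decide) e
  · exact h1 4 5 (by decide) e
  · exact h1 5 6 (by decide) e
  · exact h1 6 0 (by decide) e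
  · exact h2 0 1 2 3 (by decide) (by decide) e
  · exact h2 1 2 3 4 (by decide) (by decide) e
  · exact h2 2 3 4 5 (by decide) (by decide) e
  · exact h2 3 4 5 6 (by decide) (by decide) e
  · exact h2 4 5 6 0 (by decide) (by decide) e
  · exact h2 5 6 0 1 (by decide) (by decide) e
  · exact h2 6 0 1 2 (by decide) (by decide) e
  · exact h3 0 1 2 3 4 5 (by decide) (by decide) e
  · exact h3 1 2 3 4 5 6 (by decide) (by decide) e
  · exact h3 2 3 4 5 6 0 (by decide) (by decide) e
  · exact h3 3 4 5 6 0 1 (by decide) (by decide) e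
  · exact h3 4 5 6 0 1 2 (by decide) (by decide) e
  · exact h3 5 6 0 1 2 3 (by decide) (by decide) e
  · exact h3 6 0 1 2 3 4 (by decide) (by decide) e

theorem thue_cycle_ge : 4 ≤ thue (SimpleGraph.cycleGraph 7) := by
  have hne : {n : ℕ | ∃ c : Fin 7 → Fin n,
      IsNonrepetitive (SimpleGraph.cycleGraph 7) c}.Nonempty := by
    refine ⟨7, id, ?_⟩
    intro t ht u v p hp hlen heq
    have h1 : (p.support).take t = (p.support).drop t := by simpa using heq
    have hnd : p.support.Nodup := hp.support_nodup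
    have h2 : (p.support.take t) ≠ [] := by
      intro h0
      have := congrArg List.length h0
      simp at this
      omega
    obtain ⟨x, hx⟩ := List.exists_mem_of_ne_nil _ h2
    have hx' : x ∈ p.support.drop t := h1 ▸ hx
    have := List.disjoint_take_drop hnd (le_refl t)
    exact this hx hx'
  obtain ⟨c, hc⟩ := Nat.sInf_mem hne
  by_contra hlt
  have hle : sInf {n : ℕ | ∃ c : Fin 7 → Fin n,
      IsNonrepetitive (SimpleGraph.cycleGraph 7) c} ≤ 3 := by
    unfold thue at hlt
    omega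
  exact cycle_not_three _ (nonrep_comp_injective hc (Fin.castLE hle)
    (Fin.castLE_injective hle))

/-! ### A nonrepetitive colouring of `C₇[2K₁]` with six colours -/

/-- The graph `C₇[2K₁]`. -/
abbrev L : SimpleGraph (Fin 7 × Fin 2) :=
  lexProd (SimpleGraph.cycleGraph 7) (⊥ : SimpleGraph (Fin 2))

theorem L_adj (x y : Fin 7 × Fin 2) : L.Adj x y ↔ (x.1 - y.1 = 1 ∨ y.1 - x.1 = 1) := by
  simp [lexProd, SimpleGraph.cycleGraph_adj]

/-- The colouring. -/
def col (x : Fin 7 × Fin 2) : Fin 6 :=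
  ![![2, 2], ![3, 5], ![4, 4], ![1, 2], ![0, 0], ![3, 5], ![0, 1]] x.1 x.2

theorem col_one : ∀ a b : Fin 7 × Fin 2, (a.1 - b.1 = 1 ∨ b.1 - a.1 = 1) → col a ≠ col b := by
  decide +kernel

set_option synthInstance.maxSize 10000 in
theorem col_two : ∀ a b : Fin 7 × Fin 2, (a.1 - b.1 = 1 ∨ b.1 - a.1 = 1) →
    ∀ a' : Fin 7 × Fin 2, (b.1 - a'.1 = 1 ∨ a'.1 - b.1 = 1) → col a = col a' → a ≠ a' →
    ∀ b' : Fin 7 × Fin 2, (a'.1 - b'.1 = 1 ∨ b'.1 - a'.1 = 1) → col b = col b' → b ≠ b' →
    False := by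
  decide +kernel

set_option synthInstance.maxSize 10000 in
theorem col_three : ∀ a b : Fin 7 × Fin 2, (a.1 - b.1 = 1 ∨ b.1 - a.1 = 1) →
    ∀ a' : Fin 7 × Fin 2, col a = col a' → a ≠ a' → b ≠ a' →
    ∀ b' : Fin 7 × Fin 2, col b = col b' → (a'.1 - b'.1 = 1 ∨ b'.1 - a'.1 = 1) →
      a ≠ b' → b ≠ b' →
    ∀ d : Fin 7 × Fin 2, (b.1 - d.1 = 1 ∨ d.1 - b.1 = 1) → a ≠ d → a' ≠ d → b' ≠ d →
    ∀ d' : Fin 7 × Fin 2, col d = col d' → (b'.1 - d'.1 = 1 ∨ d'.1 - b'.1 = 1) →
      a ≠ d' → b ≠ d' → d ≠ d' → a' ≠ d' → False := by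
  decide +kernel

theorem col_nonrep : IsNonrepetitive L col := by
  intro t ht u v p hp hlen heq
  have hnd : p.support.Nodup := hp.support_nodup
  have hch : p.support.IsChain L.Adj := p.isChain_adj_support
  generalize hl : p.support = l at *
  have hadj : ∀ i (hi : i + 1 < l.length),
      ((l[i]).1 - (l[i + 1]).1 = 1 ∨ (l[i + 1]).1 - (l[i]).1 = 1) := by
    intro i hi
    exact (L_adj _ _).1 (hch.getElem i hi)
  have hne : ∀ i j (hi : i < l.length) (hj : j < l.length), i ≠ j → l[i] ≠ l[j] := by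
    intro i j hi hj hij h
    exact hij ((List.Nodup.getElem_inj_iff hnd).1 h)
  have hcol : ∀ i (hi : i < t), col (l[i]'(by omega)) = col (l[t + i]'(by omega)) := by
    intro i hi
    have h1 : ((l.map col).take t)[i]'(by simp; omega) =
        ((l.map col).drop t)[i]'(by simp; omega) := by
      simp only [heq]
    simpa using h1
  rcases Nat.lt_or_ge t 2 with h2 | h2
  · have ht1 : t = 1 := by omega
    subst ht1
    exact col_one _ _ (hadj 0 (by omega)) (hcol 0 (by omega))
  · rcases Nat.lt_or_ge t 3 with h3 | h3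
    · have ht2 : t = 2 := by omega
      subst ht2
      exact col_two _ _ (hadj 0 (by omega)) _ (hadj 1 (by omega)) (hcol 0 (by omega))
        (hne 0 2 (by omega) (by omega) (by omega)) _ (hadj 2 (by omega)) (hcol 1 (by omega))
        (hne 1 3 (by omega) (by omega) (by omega))
    · exact col_three _ _ (hadj 0 (by omega)) _ (hcol 0 (by omega))
        (hne 0 (t + 0) (by omega) (by omega) (by omega))
        (hne 1 (t + 0) (by omega) (by omega) (by omega))
        _ (hcol 1 (by omega)) (hadj (t + 0) (by omega))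
        (hne 0 (t + 1) (by omega) (by omega) (by omega))
        (hne 1 (t + 1) (by omega) (by omega) (by omega))
        _ (hadj 1 (by omega))
        (hne 0 2 (by omega) (by omega) (by omega))
        (hne (t + 0) 2 (by omega) (by omega) (by omega))
        (hne (t + 1) 2 (by omega) (by omega) (by omega))
        _ (hcol 2 (by omega)) (hadj (t + 1) (by omega))
        (hne 0 (t + 2) (by omega) (by omega) (by omega))
        (hne 1 (t + 2) (by omega) (by omega) (by omega))
        (hne 2 (t + 2) (by omega) (by omega) (by omega))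
        (hne (t + 0) (t + 2) (by omega) (by omega) (by omega))

theorem thue_L_le : thue L ≤ 6 := Nat.sInf_le ⟨col, col_nonrep⟩

theorem thue_bot_ge : 1 ≤ thue (⊥ : SimpleGraph (Fin 2)) := by
  have hne : {n : ℕ | ∃ c : Fin 2 → Fin n,
      IsNonrepetitive (⊥ : SimpleGraph (Fin 2)) c}.Nonempty := by
    refine ⟨1, fun _ => 0, ?_⟩
    intro t ht u v p hp hlen heq
    cases p with
    | nil => simp at hlen; omega
    | cons h _ => exact h
  obtain ⟨c, hc⟩ := Nat.sInf_mem hne
  exact Nat.succ_le_of_lt ((Nat.zero_le _).trans_lt (c 0).isLt)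

/-- The conjectured lower bound `π(H) + (π(G) - 1) |V(H)| ≤ π(G[H])` fails for some finite
simple graphs `G` and `H` (here `G = C₇` and `H = 2K₁`). -/
theorem result : ¬ ∀ (V W : Type) [Fintype V] [Fintype W] (G : SimpleGraph V)
    (H : SimpleGraph W),
    (thue H : ℤ) + ((thue G : ℤ) - 1) * (Fintype.card W : ℤ) ≤ (thue (lexProd G H) : ℤ) := by
  intro h
  have h1 := h (Fin 7) (Fin 2) (SimpleGraph.cycleGraph 7) ⊥
  have h2 := thue_L_le
  have h3 := thue_bot_ge
  have h4 := thue_cycle_ge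
  simp only [Fintype.card_fin] at h1
  unfold L at h2
  push_cast at h1
  omega

end Pool.Agent.Results.MP_35dbbb_co.LowerBoundFails
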